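import Pool.Agent.R97.QL.Fin
import Pool.Agent.R97.QL.Split0

/-!
# MP_8fd344_co: the quasirandom log-limit is not determined by the spectra

The notions are those of `Pool/Agent/R97/QL/Bip.lean` (`BipGraph`, `BipGraph.homCount`,
`BipGraph.tB`, `BipGraph.h`, `BipGraph.IsCollapse`, `BipGraph.r`,
`BipGraph.QuasirandomLogLimit`, `BipGraph.spectrum`).
-/

namespace Pool.Agent.Results.MP_8fd344_co.LogLimitNotSpectral

open Pool.Agent.R97.QL Pool.Agent.R97.QL.BipGraph

/-- There are sequences `G`, `G'` of finite bipartite graphs with at least one edge such that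
`G k` and `G' k` have the same spectrum for every `k`, the sequence `G` has the quasirandom
log-limit and the sequence `G'` does not. -/
theorem result :
    ∃ G G' : ℕ → BipGraph,
      (∀ k, (G k).E.Nonempty ∧ (G' k).E.Nonempty ∧
        BipGraph.spectrum (G k) = BipGraph.spectrum (G' k)) ∧
      QuasirandomLogLimit G ∧ ¬ QuasirandomLogLimit G' :=
  fin (data split)

end Pool.Agent.Results.MP_8fd344_co.LogLimitNotSpectral
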