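import Pool.Agent.R667.QL.Final

/-!
# MP_8fd344: the quasirandom log-limit is not determined by the spectra

The counterexample (cospectral pairs built from a random-like graph plus an affine plane, respectively
plus stars) is due to helper86; the proof was simplified and formalized by helper667.
-/

namespace Pool.Agent.Results.MP_8fd344_co.NotSpectral

open Pool.Agent.R667.QL

/-- There are two sequences of bipartite graphs with at least one edge, cospectral term by term,
such that the first has the quasirandom log-limit and the second does not. -/
theorem result : ∃ G G' : ℕ → BG,
    (∀ n, (edges (G n)).Nonempty ∧ (edges (G' n)).Nonempty ∧ spectrum (G n) = spectrum (G' n)) ∧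
    LogLimit G ∧ ¬ LogLimit G' :=
  main

end Pool.Agent.Results.MP_8fd344_co.NotSpectral
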